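import Pool.Agent.Lib.MP_e9c0f3_ag.H5T.Ends
import Pool.Agent.Lib.MP_e9c0f3_ag.H5T.Main
import Pool.Agent.Lib.MP_e9c0f3_ag.H5T.Cmp

/-! The class of a tropical cycle is killed by the eigenwave operator. -/

open Matrix ExteriorAlgebra
open scoped TensorProduct Classical

noncomputable section

namespace H5T.Conv

open TropCx EA

variable {n : ℕ} {V E E' : Type} [AddCommGroup E] [Module ℚ E] [AddCommGroup E'] [Module ℚ E']

/-- Exterior multiplication by a real vector. -/
def om (v : Pt n) : Mv n →ₗ[ℚ] MvR n :=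
  ∑ i, TensorProduct.mk ℚ ℝ (Mv n) (v i) ∘ₗ LinearMap.mulLeft ℚ (ι ℚ (Pi.single i 1))

theorem om_apply (v : Pt n) (β : Mv n) :
    om v β = ∑ i, v i ⊗ₜ[ℚ] (ι ℚ (Pi.single i 1) * β) := by
  simp [om, LinearMap.sum_apply]

theorem om_add (v w : Pt n) (β : Mv n) : om (v + w) β = om v β + om w β := by
  simp [om_apply, TensorProduct.add_tmul, Finset.sum_add_distrib]

theorem om_smul (r : ℝ) (v : Pt n) (β : Mv n) : om (r • v) β = r • om v β := by
  simp [om_apply, Finset.smul_sum, TensorProduct.smul_tmul']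

theorem om_rv (t : Fin n → ℚ) (β : Mv n) : om (rv t) β = (1 : ℝ) ⊗ₜ[ℚ] (ι ℚ t * β) := by
  have h : t = ∑ i, t i • (Pi.single i 1 : Fin n → ℚ) := by
    ext j; simp [Pi.single_apply]
  rw [om_apply]
  conv_rhs => rw [h, map_sum, Finset.sum_mul, TensorProduct.tmul_sum]
  refine Finset.sum_congr rfl fun i _ => ?_
  rw [map_smul, smul_mul_assoc, ← TensorProduct.smul_tmul, G33.rv_apply]
  simp [Algebra.smul_def]

theorem om_mem {T : Submodule ℚ (Fin n → ℚ)} {H : Submodule ℚ (Mv n)} {β : Mv n}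
    (h : ∀ t ∈ T, ι ℚ t * β ∈ H) {v : Pt n} (hv : v ∈ Submodule.span ℝ (rv '' (T : Set _))) :
    om v β ∈ H.baseChange ℝ := by
  induction hv using Submodule.span_induction with
  | mem x hx =>
    obtain ⟨t, ht, rfl⟩ := hx
    rw [om_rv]
    exact Submodule.tmul_mem_baseChange_of_mem _ (h t ht)
  | zero => simp [om_apply]
  | add x y _ _ hx hy => rw [om_add]; exact add_mem hx hy
  | smul r x _ hx => rw [om_smul]; exact Submodule.smul_mem _ _ hx

theorem real_le (U : Submodule ℚ (Fin n → ℚ)) : real U ≤ Submodule.span ℝ (rv '' (U : Set _)) := by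
  intro v hv
  obtain ⟨r, xs, c, hc⟩ := G33.coords (Finset.univ.image v)
  have e : v = ∑ j ∈ Finset.range r, xs j • rv fun i => c j (v i) := by
    ext i
    rw [Finset.sum_apply]
    have := hc (v i) (by simp)
    simp only [Pi.smul_apply, G33.rv_apply, smul_eq_mul]
    exact this.trans (Finset.sum_congr rfl fun j _ => mul_comm _ _)
  rw [e]
  refine Submodule.sum_mem _ fun j _ => Submodule.smul_mem _ _ (Submodule.subset_span ⟨_, ?_, rfl⟩)
  by_contra hn
  obtain ⟨h, h1, h2⟩ := exists_sep hn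
  exact h2 (by rw [← G33.map_dot, hv h h1, map_zero])

theorem rank_le (T : Submodule ℚ (Fin n → ℚ)) :
    Module.finrank ℚ T ≤ Module.finrank ℝ (Submodule.span ℝ (rv '' (T : Set (Fin n → ℚ)))) := by
  let b := Module.finBasis ℚ T
  have h1 : LinearIndependent ℚ fun i => (b i : Fin n → ℚ) :=
    b.linearIndependent.map' T.subtype T.ker_subtype
  have h2 : LinearIndependent ℝ fun i => algebraMap ℚ ℝ ∘ (b i : Fin n → ℚ) :=
    linearIndependent_algebraMap_comp_iff.2 h1
  have h3 : LinearIndependent ℝ fun i => (⟨rv (b i), Submodule.subset_span ⟨_, (b i).2, rfl⟩⟩ :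
      Submodule.span ℝ (rv '' (T : Set (Fin n → ℚ)))) :=
    LinearIndependent.of_comp (Submodule.subtype _) h2
  simpa using h3.fintype_card_le_finrank

theorem om_zero {k : ℕ} {l : List (Pt n)} (hl : l.length = k + 1) {x y : Pt n} (hx : x ∈ l)
    (hy : y ∈ l) {β : Mv n} (hβ : β ∈ wedge (tangE (l.map Sum.inl)) k) : om (x - y) β = 0 := by
  have e : dirE (l.map Sum.inl : List (PD n)) = vectorSpan ℝ (Set.range l.get) := by
    rw [dirE, Set.range_list_get]
    simp
  have h1 : Module.finrank ℝ (dirE (l.map Sum.inl : List (PD n))) ≤ k := by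
    rw [e]; exact finrank_vectorSpan_range_le ℝ _ (by simpa using hl)
  have h2 : Submodule.span ℝ (rv '' (tangE (l.map Sum.inl : List (PD n)) : Set (Fin n → ℚ))) ≤
      dirE (l.map Sum.inl) := Submodule.span_le.2 (by rintro _ ⟨t, ht, rfl⟩; exact ht)
  have h3 := rank_le (tangE (l.map Sum.inl : List (PD n)))
  have h4 := Submodule.finrank_mono h2
  by_cases c : Module.finrank ℚ (tangE (l.map Sum.inl : List (PD n))) < k
  · rw [wedge_eq_bot c, Submodule.mem_bot] at hβ
    rw [hβ, map_zero]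
  · have h5 := Submodule.eq_of_le_of_finrank_le h2 (by omega)
    have h6 : x - y ∈ dirE (l.map Sum.inl : List (PD n)) := by
      rw [e, Set.range_list_get]; exact vsub_mem_vectorSpan ℝ hx hy
    have := om_mem (fun t ht => mul_mem_wedge ht hβ) (h5 ▸ h6)
    rwa [wedge_eq_bot (by omega), Submodule.baseChange_bot, Submodule.mem_bot] at this

theorem cap_cons (c : V → V → E →ₗ[ℚ] E') (x y : V) (z : List V →₀ E) :
    cap c (cons x (cons y z)) = cons y (co (c x y) z) := by
  induction z using Finsupp.induction_linear with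
  | zero => simp
  | add a b ha hb => simp only [map_add, ha, hb]
  | single l β => simp

theorem bd_cap (c : V → V → E →ₗ[ℚ] E') (hc : ∀ x y z β, c x z β = c x y β + c y z β)
    (z : List V →₀ E) : bd (cap c z) + cap c (bd z) ∈ Finsupp.supported E' ℚ {[]} := by
  induction z using Finsupp.induction_linear with
  | zero => simp
  | add a b ha hb =>
    simp only [map_add]
    rw [add_add_add_comm]
    exact add_mem ha hb
  | single l β =>
    rcases l with _ | ⟨x, _ | ⟨y, l⟩⟩
    · simp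
    · simp [bd_single_cons]
    · rw [cap_two, bd_single_cons y, bd_single_cons x, bd_single_cons y, map_sub (cons x), map_sub,
        map_sub, cap_cons, ← bd_co, co_single, cons_single]
      rcases l with _ | ⟨w, l⟩
      · simpa using Finsupp.single_mem_supported ℚ _ (Set.mem_singleton _)
      · rw [cap_two, cap_two, hc x y w, Finsupp.single_add]
        convert Submodule.zero_mem _ using 1
        abel

/-- The eigenwave operator on affine simplices. -/
def wv : (List (Pt n) →₀ Mv n) →ₗ[ℚ] (List (Pt n) →₀ MvR n) := cap fun x y => om (x - y)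

variable {X : TropCx n}

theorem wv_map (u : List (Set (Pt n)) →₀ Mv n) :
    wv (u.mapDomain (List.map X.pt)) = (X.wave u).mapDomain (List.map X.pt) := by
  induction u using Finsupp.induction_linear with
  | zero => simp
  | add a b ha hb => simp only [Finsupp.mapDomain_add, map_add, ha, hb]
  | single l β =>
    rcases l with _ | ⟨x, _ | ⟨y, l⟩⟩
    · simp [wv, TropCx.wave]
    · simp [wv, TropCx.wave]
    · rw [Finsupp.mapDomain_single, TropCx.wave, cap_two, Finsupp.mapDomain_single, wv,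
        List.map_cons, List.map_cons, cap_two]
      rfl

theorem om_F {σ : Set (Pt n)} {x y : Pt n} (hx : x ∈ σ) (hy : y ∈ σ) (p : ℕ) :
    ∀ β ∈ X.F p σ, om (x - y) β ∈ re (X.F (p + 1)) σ := by
  intro β hβ
  refine (iSup₂_le fun η hη => iSup_le fun h γ hγ => ?_ :
    X.F p σ ≤ (re (X.F (p + 1)) σ).comap (om (x - y))) hβ
  refine om_mem (T := tang η) (fun t ht => ?_)
    (real_le _ (dir_le_real X hη (vsub_mem_vectorSpan ℝ (h hx) (h hy))))
  exact (le_iSup₂_of_le η hη (le_iSup_of_le h le_rfl) : wedge (tang η) (p + 1) ≤ X.F (p + 1) σ)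
    (mul_mem_wedge ht hγ)

theorem om_I (σ : Set (Pt n)) (v : Pt n) : ∀ β ∈ X.I σ, om v β ∈ re X.I σ := by
  intro β hβ
  rw [om_apply]
  exact Submodule.sum_mem _ fun i _ => Submodule.tmul_mem_baseChange_of_mem _ (mul_mem_I _ hβ)

theorem wv_C {p q : ℕ} {z : List (Pt n) →₀ Mv n} (hz : z ∈ X.C Inside (X.F p) (q + 1)) :
    wv z ∈ X.C Inside (re (X.F (p + 1))) q := by
  rw [C_eq] at hz ⊢
  refine map_mem_of_Ch wv (fun l β hβ => ?_) hz
  rcases l with _ | ⟨x, _ | ⟨y, l⟩⟩
  · simp [wv]
  · simp [wv]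
  · rw [wv, cap_two]
    refine single_mem_Ch ?_
    by_cases e : (y :: l).length = q + 1
    · rw [if_pos e]
      rw [if_pos (by simpa using e)] at hβ
      exact cf_map _ (fun σ hσ h γ hγ => le_cf hσ (fun a ha => h a (by simp [ha]))
        (om_F (h x (by simp)) (h y (by simp)) p γ hγ)) β hβ
    · rw [if_neg (by simpa using e), Submodule.mem_bot] at hβ
      simp [hβ]

theorem wv_Z {z : List (Pt n) →₀ Mv n} (hz : z ∈ X.Z Inside X.I) :
    wv z ∈ X.Z Inside (re X.I) := by
  rw [Z_eq] at hz ⊢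
  refine map_mem_of_Ch wv (fun l β hβ => ?_) hz
  rcases l with _ | ⟨x, _ | ⟨y, l⟩⟩
  · simp [wv]
  · simp [wv]
  · rw [wv, cap_two]
    refine single_mem_Ch ?_
    rw [if_neg (by simp)] at hβ ⊢
    exact cf_map _ (fun σ hσ h γ hγ => le_cf hσ (fun a ha => h a (by simp [ha]))
      (om_I σ _ γ hγ)) β hβ

theorem wv_cut {k : ℕ} {W : List (PD n) →₀ Mv n} (hW : X.TropCyc k W) : wv (cut W) = 0 := by
  refine (Submodule.mem_bot ℚ).1 (map_mem_of_Ch (G := fun l : List (Pt n) =>
    if l.length = k + 1 then wedge (tangE (l.map Sum.inl)) k else ⊥) wv (fun l β hβ => ?_)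
    (mem_Ch.2 fun l => ?_))
  · rcases l with _ | ⟨x, _ | ⟨y, l⟩⟩
    · simp [wv]
    · simp [wv]
    · rw [wv, cap_two, Submodule.mem_bot]
      split_ifs at hβ with e
      · rw [om_zero e (by simp) (by simp) hβ, Finsupp.single_zero]
      · rw [(Submodule.mem_bot ℚ).1 hβ, map_zero, Finsupp.single_zero]
  · split_ifs with e
    · exact hW.2.1 _
    · exact (Finsupp.mem_supported' _ _).1 (C_supported hW.1) (l.map Sum.inl)
        fun h => e (by simpa using h.2)

theorem compare {G I : Set (Pt n) → Submodule ℚ E} {q : ℕ} {u : List (Set (Pt n)) →₀ E}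
    (hu : u ∈ Finsupp.supported E ℚ {l | ∃ σ, X.Flag l σ})
    (h : u.mapDomain (List.map X.pt) ∈ (X.C Inside G q).map bd ⊔ X.Z Inside I) :
    u ∈ (X.C X.Flag G q).map bd ⊔ X.Z X.Flag I := by
  obtain ⟨k, h0, h1, h2⟩ := cmp_exists X
  obtain ⟨_, ⟨y, hy, rfl⟩, r, hr, e⟩ := Submodule.mem_sup.1 h
  have e1 : ker k (u.mapDomain (List.map X.pt)) = u := by
    have := map_mem_of_supported
      (ker k ∘ₗ Finsupp.lmapDomain E ℚ (List.map X.pt) - LinearMap.id) (S := ⊥)
      (fun l hl β => by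
        obtain ⟨σ, hσ⟩ := hl
        simp [ker_single, h2 l σ hσ]) hu
    simpa [sub_eq_zero] using this
  have e2 := ker_chain (S := ∅) (k := k) (fun l hl => by
    obtain ⟨⟨σ, hσ, hl⟩, -⟩ := hl
    rw [(h1 l σ hσ hl).2, sub_self]
    exact Submodule.zero_mem _) (TropCx.C_supported hy)
  rw [Finsupp.supported_empty, Submodule.mem_bot, sub_eq_zero] at e2
  rw [← e1, ← e, map_add, ← e2]
  refine Submodule.add_mem_sup (Submodule.mem_map_of_mem (TropCx.ker_mem_C
    (fun l σ hσ hl e l' hl' => ⟨((h1 l σ hσ hl).1 l' hl').1,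
      ((h1 l σ hσ hl).1 l' hl').2.trans e⟩) hy)) ?_
  rw [TropCx.Z_eq] at hr ⊢
  refine ker_mem_Ch k (fun l l' hl' => ?_) hr
  by_cases e' : l = []
  · subst e'
    rw [h0] at hl'
    obtain rfl : l' = [] := by simpa using Finsupp.support_single_subset hl'
    simp
  · rw [if_neg e']
    split_ifs
    · exact le_top
    · exact TropCx.cf_le fun σ hσ hc => TropCx.le_cf hσ ((h1 l σ hσ hc).1 l' hl').1

/-- Classes of tropical cycles are killed by the eigenwave operator. -/
theorem converse (X : TropCx n) {k : ℕ} {u : List (Set (Pt n)) →₀ Mv n}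
    (hu : u ∈ X.C X.Flag (X.F k) k) {W : List (PD n) →₀ Mv n} (hW : X.TropCyc k W)
    (h : u.mapDomain (List.map X.pt) - cut W ∈ X.B Inside k k) :
    X.wave u ∈ (X.C X.Flag (re (X.F (k + 1))) k).map bd ⊔ X.Z X.Flag (re X.I) := by
  refine compare (map_mem_of_supported X.wave (fun l hl β => ?_) (C_supported hu)) ?_
  · obtain ⟨⟨σ, -, hσ⟩, -⟩ := hl
    rcases l with _ | ⟨x, _ | ⟨y, l⟩⟩
    · simp [TropCx.wave]
    · simp [TropCx.wave]
    · rw [TropCx.wave, cap_two]
      exact Finsupp.single_mem_supported _ _ ⟨σ, hσ.sublist (by simp)⟩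
  · obtain ⟨_, ⟨y, hy, rfl⟩, r, hr, e⟩ := Submodule.mem_sup.1 h
    have e1 := congrArg wv e
    rw [map_sub, wv_cut hW, sub_zero, wv_map, map_add] at e1
    have e2 : bd (wv y) + wv (bd y) ∈ X.Z Inside (re X.I) := by
      have := bd_cap (fun x y : Pt n => om (x - y))
        (fun x y z β => by rw [← om_add, sub_add_sub_cancel]) y
      rw [Z_eq, mem_Ch]
      intro l
      split_ifs with c
      · trivial
      · rw [wv, (Finsupp.mem_supported' _ _).1 this l c]
        exact Submodule.zero_mem _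
    rw [← e1, show wv (bd y) + wv r = bd (-wv y) + (bd (wv y) + wv (bd y) + wv r) by
      rw [map_neg]; abel]
    exact Submodule.add_mem_sup ⟨_, neg_mem (wv_C hy), rfl⟩ (add_mem e2 (wv_Z hr))

end H5T.Conv
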